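import Pool.Agent.W262.SH.StmB

set_option autoImplicit false

namespace Pool.Agent.W352.SH

theorem cast_zero_of {n : ℕ} (a : ZMod (2 ^ (n + 1))) (h : (2 ^ n) • a = 0) :
    ZMod.castHom (Dvd.intro_left (2 ^ n) (pow_succ 2 n).symm : 2 ∣ 2 ^ (n + 1)) (ZMod 2) a = 0 := by
  have hne : NeZero (2 ^ (n + 1)) := ⟨by positivity⟩
  have h1 : ((2 ^ n * a.val : ℕ) : ZMod (2 ^ (n + 1))) = 0 := by
    rw [Nat.cast_mul, ZMod.natCast_val, ZMod.cast_id', id, ← nsmul_eq_mul]
    exact h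
  rw [ZMod.natCast_eq_zero_iff] at h1
  have h1' : 2 ^ n * 2 ∣ 2 ^ n * a.val := (dvd_of_eq (pow_succ 2 n).symm).trans h1
  have h2 : 2 ∣ a.val := (Nat.mul_dvd_mul_iff_left (by positivity)).1 h1'
  rw [ZMod.castHom_apply, ZMod.cast_eq_val]
  exact (ZMod.natCast_eq_zero_iff _ _).2 h2

theorem grp : Pool.Agent.W262.SH.GRP := by
  intro n r G H _ _ Φ hΦ j hj hfin
  have hne : NeZero (2 ^ (n + 1)) := ⟨by positivity⟩
  obtain ⟨ψ, hψ⟩ : ∃ ψ : (Fin r → ZMod (2 ^ (n + 1))) →+ H, ψ = Φ.comp j := ⟨_, rfl⟩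
  obtain ⟨ρ, hρ⟩ : ∃ ρ : (Fin r → ZMod (2 ^ (n + 1))) →+ (Fin r → ZMod 2),
      ρ = ((ZMod.castHom (Dvd.intro_left (2 ^ n) (pow_succ 2 n).symm : 2 ∣ 2 ^ (n + 1))
        (ZMod 2)).toAddMonoidHom).compLeft (Fin r) := ⟨_, rfl⟩
  have hρa : ∀ x i, ρ x i = ZMod.castHom (Dvd.intro_left (2 ^ n) (pow_succ 2 n).symm :
      2 ∣ 2 ^ (n + 1)) (ZMod 2) (x i) := by
    intro x i
    rw [hρ]
    rfl
  have hρs : Function.Surjective ρ := by
    intro y
    choose z hz using fun i => ZMod.castHom_surjective (Dvd.intro_left (2 ^ n) (pow_succ 2 n).symm :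
      2 ∣ 2 ^ (n + 1)) (y i)
    exact ⟨z, funext fun i => by rw [hρa]; exact hz i⟩
  have hK : ∀ x, ψ x = 0 → ρ x = 0 := by
    intro x hx
    rw [hψ, AddMonoidHom.comp_apply] at hx
    have h1 := hΦ _ hx
    rw [← map_nsmul] at h1
    have h2 : (2 ^ n) • x = 0 := hj (h1.trans (map_zero j).symm)
    funext i
    rw [hρa]
    exact cast_zero_of (x i) (congrFun h2 i)
  -- the finite group `V`
  have hVfin : Finite ψ.range := Finite.of_surjective ψ.rangeRestrict ψ.rangeRestrict_surjective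
  obtain ⟨d, hd⟩ : ∃ d : ψ.range →+ ψ.range, ∀ v, d v = v + v :=
    ⟨{ toFun := fun v => v + v, map_zero' := add_zero 0,
       map_add' := fun a b => by abel }, fun v => rfl⟩
  have e1 : Nat.card d.ker * d.ker.index = Nat.card ψ.range := AddSubgroup.card_mul_index _
  have e2 : Nat.card d.range * d.range.index = Nat.card ψ.range := AddSubgroup.card_mul_index _
  rw [AddSubgroup.index_ker] at e1
  have hpos : 0 < Nat.card d.range := Nat.card_pos
  have e3 : Nat.card d.ker = d.range.index := by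
    have h : Nat.card d.range * Nat.card d.ker = Nat.card d.range * d.range.index := by
      rw [mul_comm, e1, e2]
    exact Nat.eq_of_mul_eq_mul_left hpos h
  have e4 : (d.range.comap ψ.rangeRestrict).index = d.range.index :=
    AddSubgroup.index_comap_of_surjective _ ψ.rangeRestrict_surjective
  have e5 : d.range.comap ψ.rangeRestrict ≤ ρ.ker := by
    intro x hx
    rw [AddSubgroup.mem_comap] at hx
    obtain ⟨v, hv⟩ := hx
    obtain ⟨y, hy⟩ := ψ.rangeRestrict_surjective v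
    rw [hd, ← hy, ← map_add] at hv
    have h1 : ψ (y + y) = ψ x := congrArg Subtype.val hv
    have h2 : ψ (x - (y + y)) = 0 := by rw [map_sub, h1, sub_self]
    have h3 := hK _ h2
    rw [map_sub, map_add, sub_eq_zero] at h3
    rw [AddMonoidHom.mem_ker, h3]
    funext i
    rw [Pi.add_apply, Pi.zero_apply]
    exact CharTwo.add_self_eq_zero _
  have e6 : ρ.ker.index = 2 ^ r := by
    rw [AddSubgroup.index_ker, Nat.card_congr (Equiv.ofBijective (fun y : ρ.range => y.1)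
      ⟨Subtype.val_injective, fun y => ⟨⟨y, hρs y⟩, rfl⟩⟩), Nat.card_fun, Nat.card_zmod,
      Nat.card_eq_fintype_card, Fintype.card_fin]
  have e7 : ρ.ker.index ∣ (d.range.comap ψ.rangeRestrict).index := AddSubgroup.index_dvd_of_le e5
  have e8 : 0 < d.range.index := by
    rw [← e3]
    exact Nat.card_pos
  rw [e4, e6, ← e3] at e7
  have e9 : 2 ^ r ≤ Nat.card d.ker := Nat.le_of_dvd Nat.card_pos e7
  refine e9.trans ?_
  refine Nat.card_le_card_of_injective (fun v : d.ker => (⟨v.1.1, ?_⟩ : {h : H // h + h = 0})) ?_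
  · have h1 : d v.1 = 0 := v.2
    rw [hd] at h1
    exact congrArg Subtype.val h1
  · intro a b h
    have h' : a.1.1 = b.1.1 := Subtype.mk.inj h
    exact Subtype.ext (Subtype.ext h')

end Pool.Agent.W352.SH
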